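import Mathlib

set_option autoImplicit false

/-!
# MP_d31ae9_al: the stretch of edges in every hypothetical example

Let `H` and `K` be isomorphic subgroups of a group `G`, `K` of finite index and `H` of infinite
index (Q1 asks whether this can happen in a word-hyperbolic group without virtually cyclic
splittings).  We prove a structure theorem which every such pair has to satisfy.

An isomorphism `e : K ≃* H` extends to injective maps `f : G → G` with `f (k x) = e k * f x`.
The edge with label `z` at the vertex `x` of the Cayley graph is mapped to the pair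
`f x, f (x z)`, i.e. to an edge with label `stretch f x z = (f x)⁻¹ f (x z)`, which depends only
on the coset `K x` and on `z`.  Iterating `f` (with arbitrary left translations inserted) one
gets compositions of the finitely many maps `stretch f x`.  The theorem: there is a subgroup
`G₀` of infinite index, permuted by all maps `stretch f x`, whose elements have only finitely many
images under all these compositions, while for every `z` outside `G₀` the image of `z` under a
random composition of `n` maps leaves every finite set with probability tending to one.  In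
particular the iterates of `e` cannot have bounded distortion, not even for a positive proportion
of the edges with a given label `z ∉ G₀`, and every generating set contains such a `z`.

The proof: for a finite family of injections of a set the transition matrix of the random
composition has row sums one and column sums at most one.  Level sets of an invariant limit of
the averaged laws are finite sets which are permuted (`exists_level`); the squared `l^2` norms of
the laws decrease, so the laws are asymptotically transported by every map (`transport`), which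
bounds the size of the levels of the orbit of a point visited infinitely often with probability
at least `ε` (`finite_of_not_tendsto`).
-/

namespace Pool.Agent.Results.MP_d31ae9_al.StretchDichotomy

open Filter Topology

/-! ## Finite families of injections -/

section Abstract

variable {V T : Type*} [Fintype T]

/-- `prob F n z A` is the probability that `F (t n) (... (F (t 1) z))` lies in `A`, where
`t 1, ..., t n` are independent and uniformly distributed in the finite set `T`. -/
noncomputable def prob (F : T → V → V) : ℕ → V → Set V → ℝ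
  | 0, z, A => A.indicator 1 z
  | n + 1, z, A => (∑ t, prob F n (F t z) A) / Fintype.card T

/-- All images of `z` under finite compositions of maps of the family. -/
def orb (F : T → V → V) (z : V) : Set V :=
  {y | ∃ l : List T, l.foldl (fun v t => F t v) z = y}

variable (F : T → V → V)

theorem prob_nonneg (n : ℕ) (z : V) (A : Set V) : 0 ≤ prob F n z A := by
  induction n generalizing z with
  | zero =>
    simp only [prob]
    exact Set.indicator_nonneg (fun _ _ => by simp) _
  | succ n ih =>
    simp only [prob]
    exact div_nonneg (Finset.sum_nonneg fun t _ => ih _) (Nat.cast_nonneg _)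

theorem prob_union (n : ℕ) (z : V) (A B : Set V) (h : Disjoint A B) :
    prob F n z (A ∪ B) = prob F n z A + prob F n z B := by
  induction n generalizing z with
  | zero =>
    simp only [prob]
    rw [Set.indicator_union_of_disjoint h]
  | succ n ih =>
    simp only [prob]
    rw [← add_div, ← Finset.sum_add_distrib]
    congr 1
    exact Finset.sum_congr rfl fun t _ => ih _

theorem prob_mono (n : ℕ) (z : V) (A B : Set V) (h : A ⊆ B) :
    prob F n z A ≤ prob F n z B := by
  have h1 : B = A ∪ (B \ A) := (Set.union_sdiff_cancel h).symm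
  rw [h1, prob_union F n z A (B \ A) Set.disjoint_sdiff_right]
  have := prob_nonneg F n z (B \ A)
  linarith

theorem prob_empty (n : ℕ) (z : V) : prob F n z ∅ = 0 := by
  have h := prob_union F n z ∅ ∅ (by simp)
  simp at h
  exact h

theorem prob_shift (n : ℕ) (z : V) (A : Set V) :
    prob F (n + 1) z A = (∑ t, prob F n z (F t ⁻¹' A)) / Fintype.card T := by
  induction n generalizing z with
  | zero =>
    simp only [prob]
    congr 1
  | succ n ih =>
    have h1 : prob F (n + 1 + 1) z A = (∑ t, prob F (n + 1) (F t z) A) / Fintype.card T := rfl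
    rw [h1]
    have h2 : ∀ t, prob F (n + 1) (F t z) A
        = (∑ s, prob F n (F t z) (F s ⁻¹' A)) / Fintype.card T := fun t => ih _
    simp only [h2]
    have h3 : ∀ s, prob F (n + 1) z (F s ⁻¹' A)
        = (∑ t, prob F n (F t z) (F s ⁻¹' A)) / Fintype.card T := fun s => rfl
    simp only [h3]
    rw [← Finset.sum_div, ← Finset.sum_div, Finset.sum_comm]

theorem prob_eq_zero (U A : Set V) (hU : ∀ t, F t ⁻¹' U = U) (hA : A ⊆ U) (n : ℕ) (z : V)
    (hz : z ∉ U) : prob F n z A = 0 := by
  induction n generalizing z with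
  | zero =>
    simp only [prob]
    exact Set.indicator_of_notMem (fun h => hz (hA h)) _
  | succ n ih =>
    simp only [prob]
    have : ∀ t, prob F n (F t z) A = 0 := by
      intro t
      apply ih
      intro h
      apply hz
      rw [← hU t]
      exact h
    simp [this]

variable [Nonempty T]

theorem prob_univ (n : ℕ) (z : V) : prob F n z Set.univ = 1 := by
  induction n generalizing z with
  | zero => simp [prob]
  | succ n ih =>
    simp only [prob, ih]
    simp

theorem prob_le_one (n : ℕ) (z : V) (A : Set V) : prob F n z A ≤ 1 := by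
  rw [← prob_univ F n z]
  exact prob_mono F n z A _ (Set.subset_univ _)

theorem prob_orb (n : ℕ) (z : V) (S : Set V) (hS : orb F z ⊆ S) : prob F n z S = 1 := by
  induction n generalizing z with
  | zero =>
    simp only [prob]
    have : z ∈ S := hS ⟨[], rfl⟩
    simp [this]
  | succ n ih =>
    simp only [prob]
    have : ∀ t, prob F n (F t z) S = 1 := by
      intro t
      apply ih
      rintro y ⟨l, rfl⟩
      exact hS ⟨t :: l, rfl⟩
    simp [this]

/-- Average of `prob F n z A` over the window `a ≤ n < a + N`. -/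
noncomputable def avg (z : V) (A : Set V) (p : ℕ × ℕ) : ℝ :=
  (∑ i ∈ Finset.range p.1, prob F (p.2 + i) z A) / p.1

theorem avg_nonneg (z : V) (A : Set V) (p : ℕ × ℕ) : 0 ≤ avg F z A p :=
  div_nonneg (Finset.sum_nonneg fun _ _ => prob_nonneg F _ _ _) (Nat.cast_nonneg _)

theorem avg_le_one (z : V) (A : Set V) (p : ℕ × ℕ) : avg F z A p ≤ 1 := by
  unfold avg
  rcases Nat.eq_zero_or_pos p.1 with h | h
  · simp [h]
  · rw [div_le_one (by exact_mod_cast h)]
    calc ∑ i ∈ Finset.range p.1, prob F (p.2 + i) z A
        ≤ ∑ _i ∈ Finset.range p.1, (1 : ℝ) := Finset.sum_le_sum fun _ _ => prob_le_one F _ _ _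
      _ = p.1 := by simp

theorem exists_lim (u : Ultrafilter (ℕ × ℕ)) (z : V) (A : Set V) :
    ∃ x : ℝ, Tendsto (avg F z A) u (𝓝 x) := by
  have hc : IsCompact (Set.Icc (0 : ℝ) 1) := isCompact_Icc
  have h1 : ((u.map (avg F z A) : Ultrafilter ℝ) : Filter ℝ) ≤ 𝓟 (Set.Icc (0 : ℝ) 1) := by
    rw [Ultrafilter.coe_map, le_principal_iff, mem_map]
    exact Filter.univ_mem' fun p => ⟨avg_nonneg F z A p, avg_le_one F z A p⟩
  obtain ⟨x, -, hx⟩ := hc.ultrafilter_le_nhds _ h1
  exact ⟨x, hx⟩

/-- The finitely additive limit of the averaged laws along an ultrafilter. -/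
noncomputable def Q (u : Ultrafilter (ℕ × ℕ)) (z : V) (A : Set V) : ℝ :=
  Classical.choose (exists_lim F u z A)

theorem tendsto_Q (u : Ultrafilter (ℕ × ℕ)) (z : V) (A : Set V) :
    Tendsto (avg F z A) u (𝓝 (Q F u z A)) :=
  Classical.choose_spec (exists_lim F u z A)

theorem Q_nonneg (u : Ultrafilter (ℕ × ℕ)) (z : V) (A : Set V) : 0 ≤ Q F u z A :=
  ge_of_tendsto' (tendsto_Q F u z A) fun p => avg_nonneg F z A p

theorem Q_le_one (u : Ultrafilter (ℕ × ℕ)) (z : V) (A : Set V) : Q F u z A ≤ 1 :=
  le_of_tendsto' (tendsto_Q F u z A) fun p => avg_le_one F z A p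

theorem Q_union (u : Ultrafilter (ℕ × ℕ)) (z : V) (A B : Set V) (h : Disjoint A B) :
    Q F u z (A ∪ B) = Q F u z A + Q F u z B := by
  apply tendsto_nhds_unique (tendsto_Q F u z (A ∪ B))
  have h1 := (tendsto_Q F u z A).add (tendsto_Q F u z B)
  refine h1.congr fun p => ?_
  unfold avg
  rw [← add_div, ← Finset.sum_add_distrib]
  congr 1
  exact Finset.sum_congr rfl fun i _ => (prob_union F _ _ _ _ h).symm

theorem Q_finset (u : Ultrafilter (ℕ × ℕ)) (z : V) (S : Finset V) :
    Q F u z (S : Set V) = ∑ y ∈ S, Q F u z {y} := by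
  classical
  induction S using Finset.induction_on with
  | empty =>
    have h := Q_union F u z ∅ ∅ (by simp)
    simp at h
    simp [h]
  | insert a S ha ih =>
    rw [Finset.sum_insert ha, ← ih, Finset.coe_insert, Set.insert_eq]
    exact Q_union F u z _ _ (by simpa using ha)

theorem Q_invariant (u : Ultrafilter (ℕ × ℕ)) (hu : Tendsto Prod.fst (u : Filter (ℕ × ℕ)) atTop)
    (z : V) (A : Set V) :
    Q F u z A = (∑ t, Q F u z (F t ⁻¹' A)) / Fintype.card T := by
  have h1 : Tendsto (fun p => (∑ t, avg F z (F t ⁻¹' A) p) / Fintype.card T) u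
      (𝓝 ((∑ t, Q F u z (F t ⁻¹' A)) / Fintype.card T)) :=
    (tendsto_finsetSum _ fun t _ => tendsto_Q F u z (F t ⁻¹' A)).div_const _
  have h2 : Tendsto (fun p => avg F z A p - (∑ t, avg F z (F t ⁻¹' A) p) / Fintype.card T) u
      (𝓝 0) := by
    have h3 : ∀ p : ℕ × ℕ, |avg F z A p - (∑ t, avg F z (F t ⁻¹' A) p) / Fintype.card T|
        ≤ 1 / (p.1 : ℝ) := by
      intro p
      have h4 : (∑ t, avg F z (F t ⁻¹' A) p) / Fintype.card T
          = (∑ i ∈ Finset.range p.1, prob F (p.2 + i + 1) z A) / p.1 := by
        unfold avg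
        rw [← Finset.sum_div, Finset.sum_comm, div_div, mul_comm, ← div_div, Finset.sum_div]
        congr 1
        exact Finset.sum_congr rfl fun i _ => (prob_shift F _ _ _).symm
      rw [h4]
      unfold avg
      rw [← sub_div, ← Finset.sum_sub_distrib]
      have h5 : ∑ i ∈ Finset.range p.1, (prob F (p.2 + i) z A - prob F (p.2 + i + 1) z A)
          = prob F p.2 z A - prob F (p.2 + p.1) z A := by
        have := Finset.sum_range_sub' (fun i => prob F (p.2 + i) z A) p.1
        simpa [add_assoc] using this
      rw [h5, abs_div, Nat.abs_cast]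
      apply div_le_div_of_nonneg_right _ (Nat.cast_nonneg _)
      rw [abs_le]
      constructor <;>
        linarith [prob_nonneg F p.2 z A, prob_le_one F p.2 z A,
          prob_nonneg F (p.2 + p.1) z A, prob_le_one F (p.2 + p.1) z A]
    have h6 : Tendsto (fun p : ℕ × ℕ => 1 / (p.1 : ℝ)) u (𝓝 0) :=
      (tendsto_const_div_atTop_nhds_zero_nat (1 : ℝ)).comp hu
    exact squeeze_zero_norm (fun p => by rw [Real.norm_eq_abs]; exact h3 p) h6
  have h7 := (tendsto_Q F u z A).sub h1
  have h8 := tendsto_nhds_unique h7 h2
  linarith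

/-- Rearrangement: a finite set not larger than an upper level set has smaller sum, with equality
only for the level set itself. -/
theorem level_set (q : V → ℝ) (c : ℝ) (hc : 0 < c) (U A : Finset V)
    (hU : ∀ y, y ∈ U ↔ c ≤ q y) (hA : A.card ≤ U.card) :
    ∑ y ∈ A, q y ≤ ∑ y ∈ U, q y ∧ (∑ y ∈ A, q y = ∑ y ∈ U, q y → A = U) := by
  classical
  have e1 : ∑ y ∈ A, q y = ∑ y ∈ A ∩ U, q y + ∑ y ∈ A \ U, q y :=
    (Finset.sum_inter_add_sum_sdiff A U q).symm
  have e2 : ∑ y ∈ U, q y = ∑ y ∈ U ∩ A, q y + ∑ y ∈ U \ A, q y :=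
    (Finset.sum_inter_add_sum_sdiff U A q).symm
  rw [Finset.inter_comm] at e2
  have k1 : (A \ U).card ≤ (U \ A).card := by
    have a1 := Finset.card_sdiff_add_card_inter A U
    have a2 := Finset.card_sdiff_add_card_inter U A
    rw [Finset.inter_comm] at a2
    omega
  have b1 : ∑ y ∈ A \ U, q y ≤ (A \ U).card • c := by
    apply Finset.sum_le_card_nsmul
    intro y hy
    rw [Finset.mem_sdiff, hU] at hy
    linarith [hy.2]
  have b2 : (U \ A).card • c ≤ ∑ y ∈ U \ A, q y := by
    apply Finset.card_nsmul_le_sum
    intro y hy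
    rw [Finset.mem_sdiff, hU] at hy
    exact hy.1
  have b3 : (A \ U).card • c ≤ (U \ A).card • c := by
    simp only [nsmul_eq_mul]
    exact mul_le_mul_of_nonneg_right (by exact_mod_cast k1) hc.le
  refine ⟨by linarith, fun h => ?_⟩
  by_contra hne
  have c1 : (U \ A).Nonempty := by
    rw [Finset.sdiff_nonempty]
    intro hsub
    exact hne (Finset.eq_of_subset_of_card_le hsub hA).symm
  rcases (A \ U).eq_empty_or_nonempty with h0 | h0
  · have : 0 < ∑ y ∈ U \ A, q y := by
      apply Finset.sum_pos _ c1
      intro y hy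
      rw [Finset.mem_sdiff, hU] at hy
      linarith [hy.1]
    rw [h0] at e1
    simp at e1
    linarith
  · have : ∑ y ∈ A \ U, q y < (A \ U).card • c := by
      rw [← Finset.sum_const]
      apply Finset.sum_lt_sum_of_nonempty h0
      intro y hy
      rw [Finset.mem_sdiff, hU] at hy
      linarith [hy.2]
    linarith

theorem exists_level (hF : ∀ t, Function.Injective (F t)) (u : Ultrafilter (ℕ × ℕ))
    (hu : Tendsto Prod.fst (u : Filter (ℕ × ℕ)) atTop) (z y : V) (hy : 0 < Q F u z {y}) :
    ∃ U : Finset V, y ∈ U ∧ ∀ t, F t ⁻¹' (U : Set V) = U := by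
  classical
  set c := Q F u z {y} with hc
  have hfin : {v : V | c ≤ Q F u z {v}}.Finite := by
    by_contra hinf
    obtain ⟨n, hn⟩ := exists_nat_gt (1 / c)
    obtain ⟨S, hS, hcard⟩ := Set.Infinite.exists_subset_card_eq hinf n
    have h1 : (S.card : ℝ) * c ≤ ∑ v ∈ S, Q F u z {v} := by
      rw [← nsmul_eq_mul]
      apply Finset.card_nsmul_le_sum
      intro v hv
      exact hS hv
    rw [← Q_finset] at h1
    have h2 := Q_le_one F u z (S : Set V)
    rw [hcard] at h1
    rw [div_lt_iff₀ hy] at hn
    linarith
  set U := hfin.toFinset with hU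
  have hUm : ∀ v, v ∈ U ↔ c ≤ Q F u z {v} := by
    intro v
    rw [hU, Set.Finite.mem_toFinset]
    rfl
  refine ⟨U, (hUm y).2 le_rfl, ?_⟩
  let A : T → Finset V := fun t => U.preimage (F t) (hF t).injOn
  have hAc : ∀ t, (A t : Set V) = F t ⁻¹' (U : Set V) := fun t => by simp [A]
  have hcard : ∀ t, (A t).card ≤ U.card := by
    intro t
    apply Finset.card_le_card_of_injOn (F t)
    · intro v hv
      simpa [A] using hv
    · exact (hF t).injOn
  have hinv := Q_invariant F u hu z (U : Set V)
  have hT : (0 : ℝ) < Fintype.card T := by exact_mod_cast Fintype.card_pos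
  have h1 : ∑ t : T, (∑ v ∈ U, Q F u z {v} - ∑ v ∈ A t, Q F u z {v}) = 0 := by
    rw [Finset.sum_sub_distrib]
    have h2 : ∑ t : T, ∑ v ∈ A t, Q F u z {v} = ∑ t : T, Q F u z (F t ⁻¹' (U : Set V)) := by
      apply Finset.sum_congr rfl
      intro t _
      rw [← hAc t, Q_finset]
    rw [h2, ← Q_finset]
    rw [eq_div_iff hT.ne'] at hinv
    rw [← hinv]
    simp
    ring
  have h3 : ∀ t ∈ (Finset.univ : Finset T),
      0 ≤ ∑ v ∈ U, Q F u z {v} - ∑ v ∈ A t, Q F u z {v} := by
    intro t _
    have := (level_set (fun v => Q F u z {v}) c hy U (A t) hUm (hcard t)).1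
    linarith
  intro t
  have h4 := (Finset.sum_eq_zero_iff_of_nonneg h3).1 h1 t (Finset.mem_univ t)
  have h5 := (level_set (fun v => Q F u z {v}) c hy U (A t) hUm (hcard t)).2 (by linarith)
  rw [← hAc t, h5]

theorem mem_of_Q_pos (u : Ultrafilter (ℕ × ℕ)) (z y : V) (hy : 0 < Q F u z {y})
    (U : Finset V) (hyU : y ∈ U) (hU : ∀ t, F t ⁻¹' (U : Set V) = U) : z ∈ U := by
  by_contra hz
  have h0 : ∀ n, prob F n z {y} = 0 := fun n =>
    prob_eq_zero F (U : Set V) {y} hU (by simpa using hyU) n z (by simpa using hz)
  have h1 : ∀ p, avg F z {y} p = 0 := by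
    intro p
    unfold avg
    simp [h0]
  have h2 : Tendsto (avg F z {y}) u (𝓝 0) := by
    have : avg F z {y} = fun _ => (0 : ℝ) := funext h1
    rw [this]
    exact tendsto_const_nhds
  have h3 := tendsto_nhds_unique (tendsto_Q F u z {y}) h2
  linarith

theorem orb_subset (z : V) (U : Set V) (hz : z ∈ U) (hU : ∀ t, F t ⁻¹' U = U) :
    orb F z ⊆ U := by
  rintro y ⟨l, rfl⟩
  induction l generalizing z with
  | nil => exact hz
  | cons t l ih =>
    apply ih
    have : z ∈ F t ⁻¹' U := by rw [hU t]; exact hz
    exact this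

/-- A point whose orbit is finite lies in a finite set which is permuted by all maps of the
family and into which no other point is mapped. -/
theorem exists_finset_of_finite (hF : ∀ t, Function.Injective (F t)) (z : V)
    (hz : (orb F z).Finite) :
    ∃ U : Finset V, z ∈ U ∧ ∀ t, F t ⁻¹' (U : Set V) = U := by
  classical
  obtain ⟨u, hu⟩ := Ultrafilter.exists_le (atTop ×ˢ (⊤ : Filter ℕ) : Filter (ℕ × ℕ))
  have hu' : Tendsto Prod.fst (u : Filter (ℕ × ℕ)) atTop := tendsto_fst.mono_left hu
  have h1 : Q F u z (hz.toFinset : Set V) = 1 := by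
    apply tendsto_nhds_unique (tendsto_Q F u z _)
    apply Tendsto.congr' _ tendsto_const_nhds
    have h2 : ∀ᶠ p in (u : Filter (ℕ × ℕ)), 1 ≤ p.1 := hu'.eventually (eventually_ge_atTop 1)
    filter_upwards [h2] with p hp
    unfold avg
    have h3 : ∀ n, prob F n z (hz.toFinset : Set V) = 1 := fun n =>
      prob_orb F n z _ (by simp)
    simp only [h3]
    have : (p.1 : ℝ) ≠ 0 := by
      have : 0 < p.1 := hp
      positivity
    simp [this]
  rw [Q_finset] at h1
  obtain ⟨y, -, hy⟩ : ∃ y ∈ hz.toFinset, 0 < Q F u z {y} := by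
    by_contra hcon
    push Not at hcon
    have := Finset.sum_nonpos hcon
    linarith
  obtain ⟨U, hyU, hU⟩ := exists_level F hF u hu' z y hy
  exact ⟨U, mem_of_Q_pos F u z y hy U hyU hU, hU⟩

/-! ### From Cesaro means to honest limits -/

/-- Points reached by words of length exactly `l`. -/
def lvl (F : T → V → V) (l : ℕ) (z : V) : Set V :=
  {y | ∃ w : List T, w.length = l ∧ w.foldl (fun v t => F t v) z = y}

theorem prob_singleton_eq_zero (n : ℕ) (z y : V) (h : y ∉ lvl F n z) : prob F n z {y} = 0 := by
  induction n generalizing z with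
  | zero =>
    simp only [prob]
    apply Set.indicator_of_notMem
    intro h'
    exact h ⟨[], rfl, by simpa using h'⟩
  | succ n ih =>
    simp only [prob]
    have : ∀ t, prob F n (F t z) {y} = 0 := by
      intro t
      apply ih
      rintro ⟨w, hw, hy⟩
      exact h ⟨t :: w, by simp [hw], hy⟩
    simp [this]

theorem lvl_finite (n : ℕ) (z : V) : (lvl F n z).Finite := by
  have : lvl F n z = (fun w : List.Vector T n => w.toList.foldl (fun v t => F t v) z) '' Set.univ := by
    ext y
    constructor
    · rintro ⟨w, hw, hy⟩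
      exact ⟨⟨w, hw⟩, trivial, hy⟩
    · rintro ⟨w, -, hy⟩
      exact ⟨w.toList, w.toList_length, hy⟩
  rw [this]
  exact Set.finite_univ.image _

/-- Squared `l^2` norm of the law. -/
noncomputable def nrm (z : V) (n : ℕ) : ℝ :=
  ∑ y ∈ (lvl_finite F n z).toFinset, (prob F n z {y}) ^ 2

theorem prob_one_step (hF : ∀ t, Function.Injective (F t)) (n : ℕ) (z : V) (t : T) (v : V) :
    (prob F n z {v} - prob F (n + 1) z {F t v}) ^ 2
      ≤ Fintype.card T * (nrm F z n - nrm F z (n + 1)) := by
  classical
  set S := (lvl_finite F n z).toFinset with hS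
  set S' := (lvl_finite F (n + 1) z).toFinset with hS'
  have hm : (0 : ℝ) < Fintype.card T := by exact_mod_cast Fintype.card_pos
  have hmap : ∀ s, ∀ u ∈ S, F s u ∈ S' := by
    intro s u hu
    rw [hS, Set.Finite.mem_toFinset] at hu
    rw [hS', Set.Finite.mem_toFinset]
    obtain ⟨w, hw, hy⟩ := hu
    exact ⟨w ++ [s], by simp [hw], by simp [hy]⟩
  -- a s y = mass carried to y by the map s
  let a : T → V → ℝ := fun s y => prob F n z (F s ⁻¹' {y})
  have ha : ∀ s u, a s (F s u) = prob F n z {u} := by
    intro s u
    simp only [a]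
    congr 1
    ext x
    simp only [Set.mem_preimage, Set.mem_singleton_iff]
    exact (hF s).eq_iff
  have hstep : ∀ y, prob F (n + 1) z {y} = (∑ s, a s y) / Fintype.card T := fun y =>
    prob_shift F n z {y}
  have hsq : ∀ s, ∑ y ∈ S', (a s y) ^ 2 = nrm F z n := by
    intro s
    unfold nrm
    rw [← hS]
    symm
    calc ∑ u ∈ S, (prob F n z {u}) ^ 2 = ∑ u ∈ S, (a s (F s u)) ^ 2 :=
          Finset.sum_congr rfl fun u _ => by rw [ha]
      _ = ∑ y ∈ S.image (F s), (a s y) ^ 2 :=
          (Finset.sum_image (f := fun y => (a s y) ^ 2) fun x _ y _ h => hF s h).symm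
      _ = ∑ y ∈ S', (a s y) ^ 2 := by
          apply Finset.sum_subset
          · intro y hy
            rw [Finset.mem_image] at hy
            obtain ⟨u, hu, rfl⟩ := hy
            exact hmap s u hu
          · intro y _ hy
            have : a s y = 0 := by
              simp only [a]
              by_cases hex : ∃ u, F s u = y
              · obtain ⟨u, rfl⟩ := hex
                have hu : u ∉ S := fun hu => hy (Finset.mem_image_of_mem _ hu)
                have := ha s u
                simp only [a] at this
                rw [this]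
                apply prob_singleton_eq_zero
                rw [hS, Set.Finite.mem_toFinset] at hu
                exact hu
              · have : F s ⁻¹' {y} = ∅ := by
                  ext x
                  simp only [Set.mem_preimage, Set.mem_singleton_iff, Set.mem_empty_iff_false,
                    iff_false]
                  exact fun h => hex ⟨x, h⟩
                rw [this, prob_empty]
            rw [this]
            simp
  have hkey : ∑ y ∈ S', ∑ s, (a s y - prob F (n + 1) z {y}) ^ 2
      = Fintype.card T * (nrm F z n - nrm F z (n + 1)) := by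
    have e1 : ∀ y, ∑ s, (a s y - prob F (n + 1) z {y}) ^ 2
        = ∑ s, (a s y) ^ 2 - Fintype.card T * (prob F (n + 1) z {y}) ^ 2 := by
      intro y
      have e2 : ∑ s, a s y = Fintype.card T * prob F (n + 1) z {y} := by
        rw [hstep y]
        field_simp
      have e3 : ∑ s, (a s y - prob F (n + 1) z {y}) ^ 2
          = ∑ s, (a s y) ^ 2 - 2 * prob F (n + 1) z {y} * ∑ s, a s y
            + Fintype.card T * (prob F (n + 1) z {y}) ^ 2 := by
        rw [Finset.mul_sum, ← Finset.sum_sub_distrib]
        have : (Fintype.card T : ℝ) * (prob F (n + 1) z {y}) ^ 2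
            = ∑ _s : T, (prob F (n + 1) z {y}) ^ 2 := by simp
        rw [this, ← Finset.sum_add_distrib]
        exact Finset.sum_congr rfl fun s _ => by ring
      rw [e3, e2]
      ring
    simp only [e1]
    rw [Finset.sum_sub_distrib, Finset.sum_comm]
    simp only [hsq]
    rw [← Finset.mul_sum]
    have : nrm F z (n + 1) = ∑ y ∈ S', (prob F (n + 1) z {y}) ^ 2 := rfl
    rw [← this]
    simp
    ring
  by_cases hv : F t v ∈ S'
  · rw [← hkey]
    calc (prob F n z {v} - prob F (n + 1) z {F t v}) ^ 2
        = (a t (F t v) - prob F (n + 1) z {F t v}) ^ 2 := by rw [ha]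
      _ ≤ ∑ s, (a s (F t v) - prob F (n + 1) z {F t v}) ^ 2 :=
          Finset.single_le_sum (f := fun s => (a s (F t v) - prob F (n + 1) z {F t v}) ^ 2)
            (fun s _ => sq_nonneg _) (Finset.mem_univ t)
      _ ≤ ∑ y ∈ S', ∑ s, (a s y - prob F (n + 1) z {y}) ^ 2 :=
          Finset.single_le_sum (f := fun y => ∑ s, (a s y - prob F (n + 1) z {y}) ^ 2)
            (fun y _ => Finset.sum_nonneg fun s _ => sq_nonneg _) hv
  · have h1 : prob F (n + 1) z {F t v} = 0 := by
      apply prob_singleton_eq_zero
      rw [hS', Set.Finite.mem_toFinset] at hv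
      exact hv
    have h2 : prob F n z {v} = 0 := by
      apply prob_singleton_eq_zero
      intro hv'
      apply hv
      apply hmap
      rw [hS, Set.Finite.mem_toFinset]
      exact hv'
    rw [h1, h2]
    have : 0 ≤ ∑ y ∈ S', ∑ s, (a s y - prob F (n + 1) z {y}) ^ 2 :=
      Finset.sum_nonneg fun y _ => Finset.sum_nonneg fun s _ => sq_nonneg _
    rw [hkey] at this
    simpa using this

theorem nrm_antitone (hF : ∀ t, Function.Injective (F t)) (z : V) : Antitone (nrm F z) := by
  apply antitone_nat_of_succ_le
  intro n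
  have t : T := Classical.arbitrary T
  have h := prob_one_step F hF n z t z
  have hm : (0 : ℝ) < Fintype.card T := by exact_mod_cast Fintype.card_pos
  have h2 := (sq_nonneg _).trans h
  have h3 : 0 ≤ nrm F z n - nrm F z (n + 1) := by
    by_contra hcon
    push Not at hcon
    have := mul_neg_of_pos_of_neg hm hcon
    linarith
  linarith

theorem nrm_nonneg (z : V) (n : ℕ) : 0 ≤ nrm F z n :=
  Finset.sum_nonneg fun _ _ => sq_nonneg _

/-- The laws are asymptotically transported by every map of the family. -/
theorem transport (hF : ∀ t, Function.Injective (F t)) (z : V) (η : ℝ) (hη : 0 < η) :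
    ∃ n₀, ∀ n ≥ n₀, ∀ t v, prob F n z {v} - η ≤ prob F (n + 1) z {F t v} := by
  have hm : (0 : ℝ) < Fintype.card T := by exact_mod_cast Fintype.card_pos
  have hbdd : BddBelow (Set.range (nrm F z)) := ⟨0, by rintro _ ⟨n, rfl⟩; exact nrm_nonneg F z n⟩
  have hlim := tendsto_atTop_ciInf (nrm_antitone F hF z) hbdd
  have hlim' : Tendsto (fun n => Fintype.card T * (nrm F z n - nrm F z (n + 1))) atTop (𝓝 0) := by
    have h1 := hlim.sub (hlim.comp (tendsto_add_atTop_nat 1))
    have h2 := h1.const_mul (Fintype.card T : ℝ)
    simpa using h2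
  have hη2 : 0 < η ^ 2 := by positivity
  obtain ⟨n₀, hn₀⟩ := Filter.eventually_atTop.1 (hlim'.eventually (gt_mem_nhds hη2))
  refine ⟨n₀, fun n hn t v => ?_⟩
  have h3 := (prob_one_step F hF n z t v).trans (hn₀ n hn).le
  have h4 := abs_le_of_sq_le_sq h3 hη.le
  rw [abs_le] at h4
  linarith [h4.2]

theorem transport_word (hF : ∀ t, Function.Injective (F t)) (z : V) (l : ℕ) (η : ℝ)
    (hη : 0 < η) :
    ∃ n₀, ∀ n ≥ n₀, ∀ y, ∀ v ∈ lvl F l y, prob F n z {y} - l * η ≤ prob F (n + l) z {v} := by
  obtain ⟨n₀, hn₀⟩ := transport F hF z η hη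
  refine ⟨n₀, ?_⟩
  intro n hn y v hv
  obtain ⟨w, hw, rfl⟩ := hv
  induction l generalizing n y w with
  | zero =>
    have : w = [] := List.length_eq_zero_iff.1 hw
    subst this
    simp
  | succ l ih =>
    cases w with
    | nil => simp at hw
    | cons t w =>
      have h1 := hn₀ n hn t y
      have h2 := ih (n + 1) (by omega) (F t y) w (by simpa using hw)
      have h3 : n + (l + 1) = n + 1 + l := by omega
      rw [h3]
      simp only [List.foldl_cons]
      push_cast
      linarith

/-- If `y` is never revisited, it is visited at most once on average. -/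
theorem visits_le_one (y : V) (hy : ∀ d, y ∉ lvl F (d + 1) y) (N : ℕ) (z : V) :
    ∑ n ∈ Finset.range N, prob F n z {y} ≤ 1 := by
  induction N generalizing z with
  | zero => simp
  | succ N ih =>
    rw [Finset.sum_range_succ']
    by_cases hz : z = y
    · subst hz
      have h1 : ∀ n, prob F (n + 1) z {z} = 0 := fun n => prob_singleton_eq_zero F _ _ _ (hy n)
      rw [Finset.sum_eq_zero fun n _ => h1 n, zero_add]
      exact prob_le_one F 0 z {z}
    · have h1 : prob F 0 z {y} = 0 := by
        apply prob_singleton_eq_zero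
        rintro ⟨w, hw, h⟩
        have : w = [] := List.length_eq_zero_iff.1 hw
        subst this
        exact hz h
      rw [h1, add_zero]
      have h2 : ∀ n, prob F (n + 1) z {y} = (∑ t, prob F n (F t z) {y}) / Fintype.card T :=
        fun n => rfl
      simp only [h2]
      rw [← Finset.sum_div, Finset.sum_comm]
      have hm : (0 : ℝ) < Fintype.card T := by exact_mod_cast Fintype.card_pos
      rw [div_le_one hm]
      calc ∑ t, ∑ n ∈ Finset.range N, prob F n (F t z) {y} ≤ ∑ _t : T, (1 : ℝ) :=
            Finset.sum_le_sum fun t _ => ih (F t z)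
        _ = Fintype.card T := by simp

theorem lvl_add (a b : ℕ) (z y v : V) (hy : y ∈ lvl F a z) (hv : v ∈ lvl F b y) :
    v ∈ lvl F (a + b) z := by
  obtain ⟨w, hw, rfl⟩ := hy
  obtain ⟨w', hw', rfl⟩ := hv
  exact ⟨w ++ w', by simp [hw, hw'], by simp⟩

/-- If `y` keeps positive probability, its orbit is finite. -/
theorem finite_of_not_tendsto (hF : ∀ t, Function.Injective (F t)) (z y : V)
    (h : ¬ Tendsto (fun n => prob F n z {y}) atTop (𝓝 0)) : (orb F y).Finite := by
  classical
  -- `y` returns to itself
  obtain ⟨d, hd⟩ : ∃ d, y ∈ lvl F (d + 1) y := by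
    by_contra hcon
    push Not at hcon
    apply h
    exact (summable_of_sum_range_le (fun n => prob_nonneg F n z {y})
      (fun N => visits_le_one F y hcon N z)).tendsto_atTop_zero
  -- probabilities stay above some ε infinitely often
  obtain ⟨ε, hε, hfr⟩ : ∃ ε > 0, ∀ n₀, ∃ n ≥ n₀, ε ≤ prob F n z {y} := by
    by_contra hcon
    push Not at hcon
    apply h
    rw [Metric.tendsto_atTop]
    intro ε hε
    obtain ⟨n₀, hn₀⟩ := hcon ε hε
    refine ⟨n₀, fun n hn => ?_⟩
    rw [Real.dist_eq, sub_zero, abs_of_nonneg (prob_nonneg F n z {y})]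
    exact hn₀ n hn
  -- all levels have at most 2/ε points
  have hcard : ∀ l, ∀ S : Finset V, (S : Set V) ⊆ lvl F l y → (S.card : ℝ) ≤ 2 / ε := by
    intro l S hS
    obtain ⟨n₀, hn₀⟩ := transport_word F hF z l (ε / (2 * (l + 1))) (by positivity)
    obtain ⟨n, hn, hnε⟩ := hfr n₀
    have h1 : ∀ v ∈ S, ε / 2 ≤ prob F (n + l) z {v} := by
      intro v hv
      have h2 := hn₀ n hn y v (hS hv)
      have h3 : (l : ℝ) * (ε / (2 * (l + 1))) ≤ ε / 2 := by
        rw [mul_div_assoc', div_le_div_iff₀ (by positivity) (by positivity)]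
        nlinarith
      linarith
    have h4 : ∑ v ∈ S, prob F (n + l) z {v} = prob F (n + l) z (S : Set V) := by
      clear hS h1
      induction S using Finset.induction_on with
      | empty => simp [prob_empty]
      | insert a S ha ih =>
        rw [Finset.sum_insert ha, ih, Finset.coe_insert, Set.insert_eq]
        exact (prob_union F _ _ _ _ (by simpa using ha)).symm
    have h5 := Finset.card_nsmul_le_sum S (fun v => prob F (n + l) z {v}) (ε / 2) h1
    rw [h4, nsmul_eq_mul] at h5
    have h6 := prob_le_one F (n + l) z (S : Set V)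
    rw [le_div_iff₀ hε]
    linarith
  -- hence finitely many points in the orbit
  by_contra hinf
  obtain ⟨C, hC⟩ := exists_nat_gt ((d + 1 : ℝ) * (2 / ε))
  obtain ⟨S, hS, hSc⟩ := Set.Infinite.exists_subset_card_eq hinf C
  have hk : ∀ v ∈ S, ∃ k r, r < d + 1 ∧ v ∈ lvl F (k * (d + 1) + r) y := by
    intro v hv
    obtain ⟨w, hw⟩ := hS hv
    refine ⟨w.length / (d + 1), w.length % (d + 1), Nat.mod_lt _ (Nat.succ_pos d), w, ?_, hw⟩
    exact (Nat.div_add_mod' w.length (d + 1)).symm
  choose! kk rr hrr hmem using hk
  have hmono : ∀ j k r v, v ∈ lvl F (k * (d + 1) + r) y → v ∈ lvl F ((k + j) * (d + 1) + r) y := by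
    intro j k r v hv
    induction j with
    | zero => simpa using hv
    | succ j ih =>
      have h1 := lvl_add F (d + 1) ((k + j) * (d + 1) + r) y y v hd ih
      have h2 : d + 1 + ((k + j) * (d + 1) + r) = (k + (j + 1)) * (d + 1) + r := by ring
      rw [h2] at h1
      exact h1
  let L := S.sup kk
  have hall : ∀ v ∈ S, v ∈ lvl F (L * (d + 1) + rr v) y := by
    intro v hv
    have h1 : kk v ≤ L := Finset.le_sup hv
    obtain ⟨j, hj⟩ := Nat.exists_eq_add_of_le h1
    rw [hj]
    exact hmono j _ _ v (hmem v hv)
  have hsplit : S.card ≤ ∑ r ∈ Finset.range (d + 1), (S.filter fun v => rr v = r).card := by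
    rw [← Finset.card_eq_sum_card_fiberwise (f := rr) (t := Finset.range (d + 1))]
    intro v hv
    simpa using hrr v hv
  have hle : (S.card : ℝ) ≤ (d + 1 : ℝ) * (2 / ε) := by
    calc (S.card : ℝ) ≤ ∑ r ∈ Finset.range (d + 1), ((S.filter fun v => rr v = r).card : ℝ) := by
          exact_mod_cast hsplit
      _ ≤ ∑ _r ∈ Finset.range (d + 1), 2 / ε := by
          apply Finset.sum_le_sum
          intro r _
          apply hcard (L * (d + 1) + r)
          intro v hv
          rw [Finset.mem_coe, Finset.mem_filter] at hv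
          rw [← hv.2]
          exact hall v hv.1
      _ = (d + 1 : ℝ) * (2 / ε) := by simp
  rw [hSc] at hle
  linarith

/-- A point whose orbit is infinite leaves every finite set in probability. -/
theorem escape (hF : ∀ t, Function.Injective (F t)) (z : V) (hz : ¬ (orb F z).Finite)
    (A : Set V) (hA : A.Finite) : Tendsto (fun n => prob F n z A) atTop (𝓝 0) := by
  classical
  have h1 : ∀ y, Tendsto (fun n => prob F n z {y}) atTop (𝓝 0) := by
    intro y
    by_contra hcon
    have h2 := finite_of_not_tendsto F hF z y hcon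
    obtain ⟨U, hyU, hU⟩ := exists_finset_of_finite F hF y h2
    have h3 : z ∈ U := by
      by_contra hzU
      apply hcon
      have h4 : ∀ n, prob F n z {y} = 0 := fun n =>
        prob_eq_zero F (U : Set V) {y} hU (by simpa using hyU) n z (by simpa using hzU)
      simp only [h4]
      exact tendsto_const_nhds
    exact hz (U.finite_toSet.subset (orb_subset F z U h3 hU))
  have h5 : ∀ S : Finset V, Tendsto (fun n => prob F n z (S : Set V)) atTop (𝓝 0) := by
    intro S
    induction S using Finset.induction_on with
    | empty =>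
      simp only [Finset.coe_empty, prob_empty]
      exact tendsto_const_nhds
    | insert a S ha ih =>
      have h6 : ∀ n, prob F n z ((insert a S : Finset V) : Set V)
          = prob F n z {a} + prob F n z (S : Set V) := by
        intro n
        rw [Finset.coe_insert, Set.insert_eq]
        exact prob_union F _ _ _ _ (by simpa using ha)
      simp only [h6]
      simpa using (h1 a).add ih
  have h7 := h5 hA.toFinset
  simpa using h7

end Abstract

/-! ## The group theoretic part -/

section Group

variable {G : Type*} [Group G]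

/-- `stretch f x z` is the group element leading from `f x` to `f (x * z)`: the image under `f` of
the edge with label `z` which starts at `x`. -/
def stretch (f : G → G) (x z : G) : G := (f x)⁻¹ * f (x * z)

/-- All group elements obtained from `z` by finitely many applications of maps
`stretch f x`, `x` arbitrary (also different `x` in different steps). -/
def orbit (f : G → G) (z : G) : Set G :=
  {y | ∃ l : List G, l.foldl (fun v x => stretch f x v) z = y}

/-- `walk K f n z A` is the probability that
`stretch f (x n) (... (stretch f (x 1) z))` lies in `A`, where `x 1, ..., x n` are representatives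
of independent uniformly distributed right cosets of `K` (written as inverses of representatives
of left cosets). -/
noncomputable def walk (K : Subgroup G) [K.FiniteIndex] (f : G → G) :
    ℕ → G → Set G → ℝ
  | 0, z, A => A.indicator 1 z
  | n + 1, z, A =>
      (∑ᶠ t : G ⧸ K, walk K f n (stretch f (t.out)⁻¹ z) A) / K.index

variable {H K : Subgroup G}

/-- `f` is equivariant with respect to the isomorphism `e` of `K` with `H`. -/
def Equivariant (e : K ≃* H) (f : G → G) : Prop :=
  ∀ (k : K) (x : G), f (k * x) = e k * f x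

theorem stretch_mul (f : G → G) (x g h : G) :
    stretch f x (g * h) = stretch f x g * stretch f (x * g) h := by
  unfold stretch
  group

theorem stretch_one (f : G → G) (x : G) : stretch f x 1 = 1 := by
  simp [stretch]

theorem stretch_injective (f : G → G) (hf : Function.Injective f) (x : G) :
    Function.Injective (stretch f x) := by
  intro a b hab
  unfold stretch at hab
  have := hf (mul_left_cancel hab)
  exact mul_left_cancel this

theorem stretch_coset (e : K ≃* H) (f : G → G) (he : Equivariant e f) (k : K) (x z : G) :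
    stretch f (k * x) z = stretch f x z := by
  unfold stretch
  rw [he k x, mul_assoc (k : G) x z, he k (x * z)]
  group

theorem exists_rep (e : K ≃* H) (f : G → G) (he : Equivariant e f) (x : G) :
    ∃ t : G ⧸ K, stretch f x = stretch f (t.out)⁻¹ := by
  refine ⟨((x⁻¹ : G) : G ⧸ K), ?_⟩
  obtain ⟨k, hk⟩ := QuotientGroup.mk_out_eq_mul K x⁻¹
  funext z
  have h1 : (((x⁻¹ : G) : G ⧸ K).out)⁻¹ = ((k⁻¹ : K) : G) * x := by
    rw [hk]
    simp
  rw [h1]
  exact (stretch_coset e f he k⁻¹ x z).symm

/-- The finite family of maps. -/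
noncomputable def fam (K : Subgroup G) (f : G → G) (t : G ⧸ K) : G → G := stretch f (t.out)⁻¹

theorem orb_eq_orbit (e : K ≃* H) (f : G → G) (he : Equivariant e f) (z : G) :
    orb (fam K f) z = orbit f z := by
  ext y
  constructor
  · rintro ⟨l, rfl⟩
    refine ⟨l.map fun t => (t.out)⁻¹, ?_⟩
    rw [List.foldl_map]
    rfl
  · rintro ⟨l, rfl⟩
    induction l generalizing z with
    | nil => exact ⟨[], rfl⟩
    | cons x l ih =>
      obtain ⟨t, ht⟩ := exists_rep e f he x
      obtain ⟨l', hl'⟩ := ih (stretch f x z)
      refine ⟨t :: l', ?_⟩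
      simp only [List.foldl_cons]
      rw [← hl']
      unfold fam
      rw [ht]

theorem walk_eq_prob [K.FiniteIndex] [Fintype (G ⧸ K)] (f : G → G) (n : ℕ) (z : G) (A : Set G) :
    walk K f n z A = prob (fam K f) n z A := by
  induction n generalizing z with
  | zero => rfl
  | succ n ih =>
    simp only [walk, prob]
    rw [finsum_eq_sum_of_fintype]
    congr 1
    · exact Finset.sum_congr rfl fun t _ => ih _
    · rw [Subgroup.index, Nat.card_eq_fintype_card]

theorem fold_mul (f : G → G) (l : List G) (g h : G) :
    ∃ l' : List G, l.foldl (fun v x => stretch f x v) (g * h)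
      = l.foldl (fun v x => stretch f x v) g * l'.foldl (fun v x => stretch f x v) h := by
  induction l generalizing g h with
  | nil => exact ⟨[], rfl⟩
  | cons x l ih =>
    obtain ⟨l', hl'⟩ := ih (stretch f x g) (stretch f (x * g) h)
    refine ⟨(x * g) :: l', ?_⟩
    simp only [List.foldl_cons]
    rw [stretch_mul, hl']

theorem fold_one (f : G → G) (l : List G) : l.foldl (fun v x => stretch f x v) 1 = 1 := by
  induction l with
  | nil => rfl
  | cons x l ih =>
    simp only [List.foldl_cons]
    rw [stretch_one, ih]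

/-- The subgroup of all `z` with finite orbit. -/
def core (f : G → G) : Subgroup G where
  carrier := {z | (orbit f z).Finite}
  mul_mem' := by
    intro g h hg hh
    apply (hg.mul hh).subset
    rintro y ⟨l, rfl⟩
    obtain ⟨l', hl'⟩ := fold_mul f l g h
    rw [hl']
    exact Set.mul_mem_mul ⟨l, rfl⟩ ⟨l', rfl⟩
  one_mem' := by
    apply (Set.finite_singleton (1 : G)).subset
    rintro y ⟨l, rfl⟩
    rw [fold_one]
    rfl
  inv_mem' := by
    intro g hg
    apply hg.inv.subset
    rintro y ⟨l, rfl⟩
    obtain ⟨l', hl'⟩ := fold_mul f l g⁻¹ g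
    rw [inv_mul_cancel, fold_one] at hl'
    rw [Set.mem_inv, ← eq_inv_of_mul_eq_one_right hl'.symm]
    exact ⟨l', rfl⟩

theorem mem_core (f : G → G) (z : G) : z ∈ core f ↔ (orbit f z).Finite := Iff.rfl

theorem exists_equivariant [K.FiniteIndex] (hH : H.index = 0) (e : K ≃* H) :
    ∃ f : G → G, Function.Injective f ∧ Equivariant e f := by
  classical
  have : Finite (G ⧸ K) := inferInstance
  have : Infinite (G ⧸ H) := by
    rw [← not_finite_iff_infinite]
    intro hfin
    have := Nat.card_pos (α := G ⧸ H)
    rw [Subgroup.index] at hH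
    omega
  have : Fintype (G ⧸ K) := Fintype.ofFinite _
  obtain ⟨j⟩ : Nonempty ((G ⧸ K) ↪ (G ⧸ H)) := by
    obtain ⟨s, hs⟩ := Infinite.exists_subset_card_eq (G ⧸ H) (Fintype.card (G ⧸ K))
    have e1 : (G ⧸ K) ≃ s := by
      apply Fintype.equivOfCardEq
      simp [hs]
    exact ⟨e1.toEmbedding.trans (Function.Embedding.subtype _)⟩
  have hmem : ∀ g : G, g * ((g⁻¹ : G) : G ⧸ K).out ∈ K := by
    intro g
    obtain ⟨k, hk⟩ := QuotientGroup.mk_out_eq_mul K g⁻¹
    rw [hk]
    simp
  have hcos : ∀ (k : K) (x : G), (((k * x : G)⁻¹ : G) : G ⧸ K) = ((x⁻¹ : G) : G ⧸ K) := by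
    intro k x
    rw [QuotientGroup.eq]
    simp
  let f : G → G := fun g =>
    (e ⟨g * ((g⁻¹ : G) : G ⧸ K).out, hmem g⟩ : G) * ((j ((g⁻¹ : G) : G ⧸ K)).out)⁻¹
  refine ⟨f, ?_, ?_⟩
  · intro g g' h
    simp only [f] at h
    set k : K := ⟨g * ((g⁻¹ : G) : G ⧸ K).out, hmem g⟩ with hk
    set k' : K := ⟨g' * ((g'⁻¹ : G) : G ⧸ K).out, hmem g'⟩ with hk'
    have h1 : j ((g⁻¹ : G) : G ⧸ K) = j ((g'⁻¹ : G) : G ⧸ K) := by
      have h2 : (j ((g⁻¹ : G) : G ⧸ K)).out
          = (j ((g'⁻¹ : G) : G ⧸ K)).out * (((e k')⁻¹ * e k : H) : G) := by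
        have h3 := congrArg (fun y => y⁻¹) h
        simp only [mul_inv_rev, inv_inv] at h3
        push_cast
        rw [← mul_assoc, ← h3]
        group
      rw [← QuotientGroup.out_eq' (j ((g⁻¹ : G) : G ⧸ K)),
        ← QuotientGroup.out_eq' (j ((g'⁻¹ : G) : G ⧸ K)), h2]
      rw [QuotientGroup.eq]
      simp only [mul_inv_rev, InvMemClass.coe_inv, Subgroup.coe_mul, inv_inv, inv_mul_cancel_right]
      exact H.mul_mem (H.inv_mem (e k).2) (e k').2
    have h4 := j.injective h1
    have h5 : k = k' := by
      apply e.injective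
      apply Subtype.ext
      rw [h1] at h
      exact mul_right_cancel h
    have h6 : (k : G) = k' := by rw [h5]
    rw [hk, hk'] at h6
    simp only at h6
    rw [h4] at h6
    exact mul_right_cancel h6
  · intro k x
    simp only [f]
    have h1 : (⟨(k * x : G) * (((k * x : G)⁻¹ : G) : G ⧸ K).out, hmem (k * x)⟩ : K)
        = k * ⟨x * ((x⁻¹ : G) : G ⧸ K).out, hmem x⟩ := by
      apply Subtype.ext
      push_cast
      rw [hcos k x]
      group
    rw [h1, map_mul, hcos k x]
    push_cast
    group

/-- **Main theorem.**  Let `K` have finite index and `H` infinite index in `G` and let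
`e : K ≃* H`.  Then there are injective `e`-equivariant maps `f : G → G`, and for each of them
there is a subgroup `G₀` of infinite index such that

* every `z ∈ G₀` has only finitely many images under all compositions of maps `stretch f x`;
* `stretch f x` restricts to a bijection of `G₀`, for every `x`, and `stretch f x z ∈ G₀` only if
  `z ∈ G₀` (in particular `k ∈ K` lies in `G₀` iff `(f 1)⁻¹ * e k * f 1` does);
* for `z ∉ G₀` the random composition of `n` maps `stretch f x` moves `z` out of every finite set
  with probability tending to one as `n → ∞`. -/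
theorem result {G : Type*} [Group G] (H K : Subgroup G) [K.FiniteIndex] (hH : H.index = 0)
    (e : K ≃* H) :
    (∃ f : G → G, Function.Injective f ∧ Equivariant e f) ∧
    ∀ f : G → G, Function.Injective f → Equivariant e f →
      ∃ G₀ : Subgroup G,
        G₀.index = 0 ∧
        (∀ z ∈ G₀, (orbit f z).Finite) ∧
        (∀ x, Set.BijOn (stretch f x) G₀ G₀) ∧
        (∀ x z, stretch f x z ∈ G₀ → z ∈ G₀) ∧
        (∀ k : K, (k : G) ∈ G₀ ↔ (f 1)⁻¹ * e k * f 1 ∈ G₀) ∧
        (∀ z, z ∉ G₀ → ∀ A : Set G, A.Finite →
          Tendsto (fun n => walk K f n z A) atTop (𝓝 0)) := by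
  classical
  refine ⟨exists_equivariant hH e, fun f hf he => ?_⟩
  have : Finite (G ⧸ K) := inferInstance
  have : Fintype (G ⧸ K) := Fintype.ofFinite _
  have : Nonempty (G ⧸ K) := ⟨((1 : G) : G ⧸ K)⟩
  have hinj : ∀ t, Function.Injective (fam K f t) := fun t => stretch_injective f hf _
  have hsets : ∀ z ∈ core f, ∃ U : Finset G, z ∈ U ∧ ∀ x, stretch f x ⁻¹' (U : Set G) = U := by
    intro z hz
    rw [mem_core, ← orb_eq_orbit e f he] at hz
    obtain ⟨U, hzU, hU⟩ := exists_finset_of_finite (fam K f) hinj z hz
    refine ⟨U, hzU, fun x => ?_⟩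
    obtain ⟨t, ht⟩ := exists_rep e f he x
    rw [ht]
    exact hU t
  have hcore : ∀ (U : Finset G), (∀ x, stretch f x ⁻¹' (U : Set G) = U) → ∀ z ∈ U, z ∈ core f := by
    intro U hU z hz
    rw [mem_core, ← orb_eq_orbit e f he]
    exact U.finite_toSet.subset (orb_subset (fam K f) z U hz fun t => hU _)
  have hmaps : ∀ x z, z ∈ core f → stretch f x z ∈ core f := by
    intro x z hz
    apply hz.subset
    rintro y ⟨l, rfl⟩
    exact ⟨x :: l, rfl⟩
  have hback : ∀ x z, stretch f x z ∈ core f → z ∈ core f := by
    intro x z hz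
    obtain ⟨U, hzU, hU⟩ := hsets _ hz
    apply hcore U hU
    have : z ∈ stretch f x ⁻¹' (U : Set G) := hzU
    rw [hU x] at this
    exact this
  have hbij : ∀ x, Set.BijOn (stretch f x) (core f) (core f) := by
    intro x
    refine ⟨fun z hz => hmaps x z hz, (stretch_injective f hf x).injOn, ?_⟩
    intro z hz
    obtain ⟨U, hzU, hU⟩ := hsets z hz
    have hmapsU : ∀ u ∈ U, stretch f x u ∈ U := by
      intro u hu
      have : u ∈ stretch f x ⁻¹' (U : Set G) := by rw [hU x]; exact hu
      exact this
    have hsurj := Finset.surj_on_of_inj_on_of_card_le (fun u (_ : u ∈ U) => stretch f x u)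
      (fun u hu => hmapsU u hu) (fun a b _ _ h => stretch_injective f hf x h) le_rfl z hzU
    obtain ⟨u, hu, hzu⟩ := hsurj
    exact ⟨u, hcore U hU u hu, hzu.symm⟩
  refine ⟨core f, ?_, fun z hz => hz, hbij, hback, ?_, ?_⟩
  · -- infinite index
    by_contra hne
    have : (core f).FiniteIndex := ⟨hne⟩
    have : Finite (G ⧸ core f) := inferInstance
    -- every element of `G` is `h * (a finite set)`
    have hcov : ∀ g : G, ∃ (s : G ⧸ core f) (t : G ⧸ K),
        ((g⁻¹ : G) : G ⧸ H) = (((f (t.out)⁻¹ * (s.out)⁻¹ : G)⁻¹ : G) : G ⧸ H) := by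
      intro g
      -- write (f 1)⁻¹ * g = c * s⁻¹ with c in the core
      let g' := (f 1)⁻¹ * g
      obtain ⟨c, hc⟩ := QuotientGroup.mk_out_eq_mul (core f) g'⁻¹
      set s : G ⧸ core f := ((g'⁻¹ : G) : G ⧸ core f) with hs
      have h1 : g' = (c : G) * (s.out)⁻¹ := by
        rw [hc]
        group
      -- c is in the image of the core
      obtain ⟨c', hc', hcc⟩ := (hbij 1).2.2 c.2
      have h2 : (c : G) = (f 1)⁻¹ * f c' := by
        rw [← hcc]
        simp [stretch]
      -- write c' = k * t⁻¹
      obtain ⟨k, hk⟩ := QuotientGroup.mk_out_eq_mul K c'⁻¹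
      set t : G ⧸ K := ((c'⁻¹ : G) : G ⧸ K) with ht
      have h3 : c' = (k : G) * (t.out)⁻¹ := by
        rw [hk]
        group
      have h4 : f c' = e k * f (t.out)⁻¹ := by
        conv_lhs => rw [h3]
        exact he k _
      refine ⟨s, t, ?_⟩
      have h5 : g = e k * (f (t.out)⁻¹ * (s.out)⁻¹) := by
        have : g = f 1 * g' := by simp [g']
        rw [this, h1, h2, h4]
        group
      rw [QuotientGroup.eq, h5]
      have h6 : ((e k : G) * (f (t.out)⁻¹ * (s.out)⁻¹))⁻¹⁻¹ * (f (t.out)⁻¹ * (s.out)⁻¹)⁻¹
          = e k := by group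
      rw [h6]
      exact (e k).2
    have hfin : Finite (G ⧸ H) := by
      apply Finite.of_surjective
        (fun p : (G ⧸ core f) × (G ⧸ K) =>
          (((f (p.2.out)⁻¹ * (p.1.out)⁻¹ : G)⁻¹ : G) : G ⧸ H))
      intro q
      obtain ⟨g, rfl⟩ := QuotientGroup.mk_surjective q
      obtain ⟨s, t, hst⟩ := hcov g⁻¹
      refine ⟨(s, t), ?_⟩
      simp only
      rw [← hst, inv_inv]
    have : 0 < Nat.card (G ⧸ H) := Nat.card_pos
    rw [Subgroup.index] at hH
    omega
  · intro k
    have h1 : (f 1)⁻¹ * e k * f 1 = stretch f 1 k := by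
      have := he k 1
      rw [mul_one] at this
      simp [stretch, this, mul_assoc]
    rw [h1]
    exact ⟨hmaps 1 k, hback 1 k⟩
  · intro z hz A hA
    have hz' : ¬ (orb (fam K f) z).Finite := by
      rw [orb_eq_orbit e f he]
      exact hz
    have := escape (fam K f) hinj z hz' A hA
    refine this.congr fun n => ?_
    exact (walk_eq_prob f n z A).symm

end Group

end Pool.Agent.Results.MP_d31ae9_al.StretchDichotomy
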